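import Mathlib
import Pool.Agent.H217_CF.Cert

/-!
# Corner-free sets in `(F_2^n)^2` with lines decided by `OR ∘ AND ∘ OR_k ∘ parity` circuits

A `k`-cell of `F_2^N` is the set of solutions of `k` linear equations (possibly none). A local set
`Local k q D` is given by
* any number of forbidden `k`-cells (the set avoids all of them; this is an AND, of any fan-in, of
  ORs of `k` parities or negated parities),
* `q` unions, each of any number of `k`-cells, all of which contain the set, and
* one polynomial of degree at most `D` over `F_2` which does not vanish on the set.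

If each point of a corner-free set `A ⊆ (F_2^N)^2` belongs, in its row, its column or its diagonal,
to one of `m` local sets contained in this line of `A` (the local sets depend on the line in any
way), and if `D + k q ≤ (1/2 - 2 δ) N`, then `|A| ≤ 6 m 4^N exp(-c N)`, `c = min (2 δ², δ / (k 2^k))`.

Proof. Most points of a local set have a large flat around them on which none of the forbidden cells
occurs (`few`, greedy density increment: a set which avoids a coset of a subgroup of index `≤ K` is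
denser, by the factor `K / (K - 1)`, on another coset of the subgroup; apply this to the set of the
exceptional points). The indicator function of the flat times the polynomial is a certificate of low
degree for such a point, and the starting file `R288/PC` bounds the number of the points with
certificates of low degree.
-/

set_option autoImplicit false

namespace Pool.Agent.Results.MP_db4732_co.ParityLines

open Finset Module

/-- `F_2^N` -/
abbrev V (N : ℕ) := Fin N → ZMod 2

/-- `A` contains no nontrivial corner `(x, y), (x, y + z), (x + z, y)`. -/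
def CornerFree {N : ℕ} (A : Finset (V N × V N)) : Prop :=
  ∀ x y z : V N, (x, y) ∈ A → (x, y + z) ∈ A → (x + z, y) ∈ A → z = 0

/-- the functions `F_2^N → F_2` which are sums of products of at most `D` coordinates -/
def polys (N D : ℕ) : Submodule (ZMod 2) (V N → ZMod 2) :=
  Submodule.span (ZMod 2) {f | ∃ I : Finset (Fin N), I.card ≤ D ∧ f = fun y => ∏ i ∈ I, y i}

/-- the solutions of `k` linear equations -/
def Cell {N : ℕ} (k : ℕ) (B : Set (V N)) : Prop :=
  ∃ (u : Fin k → V N) (c : Fin k → ZMod 2), B = {y | ∀ i, u i ⬝ᵥ y = c i}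

/-- Local sets: the points outside of all members of a collection of cells, which lie in some member
of each of `q` further collections of cells, and at which a polynomial of degree at most `D` over
`F_2` does not vanish. -/
def Local {N : ℕ} (k q D : ℕ) (T : Set (V N)) : Prop :=
  ∃ (𝒜 : Set (Set (V N))) (ℬ : Fin q → Set (Set (V N))) (f : V N → ZMod 2),
    (∀ A ∈ 𝒜, Cell k A) ∧ (∀ j, ∀ B ∈ ℬ j, Cell k B) ∧ f ∈ polys N D ∧
      T = {y | (∀ A ∈ 𝒜, y ∉ A) ∧ (∀ j, ∃ B ∈ ℬ j, y ∈ B) ∧ f y ≠ 0}

/-- the directions of the three families of lines -/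
inductive Direction : Type
  | row : Direction
  | column : Direction
  | diagonal : Direction

/-- the rows `{y : (s, y) ∈ A}`, the columns `{x : (x, s) ∈ A}` and the diagonals
`{y : (s + y, y) ∈ A}` of `A` -/
def line {N : ℕ} (A : Finset (V N × V N)) : Direction → V N → Set (V N)
  | .row, s => {y | (s, y) ∈ A}
  | .column, s => {x | (x, s) ∈ A}
  | .diagonal, s => {y | (s + y, y) ∈ A}

/-- the line of the given direction through the point `a` has the number `number k a` -/
def number {N : ℕ} : Direction → V N × V N → V N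
  | .row, a => a.1
  | .column, a => a.2
  | .diagonal, a => a.1 + a.2

/-- the point `a` on its line of the given direction -/
def place {N : ℕ} : Direction → V N × V N → V N
  | .row, a => a.2
  | .column, a => a.1
  | .diagonal, a => a.2

open Pool.Agent.R288.PC (Deg Cert vol)

lemma mono_eq {N : ℕ} (I : Finset (Fin N)) :
    (fun y : V N => ∏ i ∈ I, y i) = Pool.Agent.R288.PC.mono (ZMod 2) I := by
  funext y
  unfold Pool.Agent.R288.PC.mono
  split_ifs with h
  · exact prod_eq_one h
  · push Not at h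
    obtain ⟨i, hi, h1⟩ := h
    refine prod_eq_zero hi ?_
    rcases Pool.Agent.R288.PC.zmod2 (y i) with h2 | h2
    · exact h2
    · exact absurd h2 h1

lemma polys_eq (N D : ℕ) : polys N D = Deg (ZMod 2) N D := by
  unfold polys Deg
  congr 1
  ext f
  simp only [mono_eq]

lemma place_inj {N : ℕ} (k : Direction) (a b : V N × V N) (h1 : number k a = number k b)
    (h2 : place k a = place k b) : a = b := by
  cases k with
  | row => exact Prod.ext h1 h2
  | column => exact Prod.ext h2 h1
  | diagonal =>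
    have h3 : a.2 = b.2 := h2
    have h4 : a.1 + a.2 = b.1 + b.2 := h1
    rw [h3] at h4
    exact Prod.ext (add_right_cancel h4) h3

lemma bound {N D : ℕ} {A : Finset (V N × V N)} (hA : CornerFree A) (k : Direction)
    (S : Finset (V N × V N))
    (hS : ∀ a ∈ S, a ∈ A ∧ Cert (ZMod 2) D (line A k (number k a)) (place k a)) :
    S.card ≤ 2 ^ N * vol N D := by
  cases k with
  | row => exact Pool.Agent.R288.PC.rows (K := ZMod 2) D A hA S hS
  | column => exact Pool.Agent.R288.PC.cols (K := ZMod 2) D A hA S hS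
  | diagonal => exact Pool.Agent.R288.PC.diags (K := ZMod 2) D A hA S hS

lemma three {N : ℕ} {A : Finset (V N × V N)} (P : Direction → V N × V N → Prop)
    (hP : ∀ a ∈ A, ∃ k, P k a) (M : ℝ)
    (h : ∀ k (S : Finset (V N × V N)), (∀ a ∈ S, a ∈ A ∧ P k a) → (S.card : ℝ) ≤ M) :
    (A.card : ℝ) ≤ 3 * M := by
  classical
  have h1 : A ⊆ (A.filter (P .row) ∪ A.filter (P .column)) ∪ A.filter (P .diagonal) := by
    intro a ha
    obtain ⟨k, hk⟩ := hP a ha
    rw [mem_union, mem_union, mem_filter, mem_filter, mem_filter]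
    cases k with
    | row => exact Or.inl (Or.inl ⟨ha, hk⟩)
    | column => exact Or.inl (Or.inr ⟨ha, hk⟩)
    | diagonal => exact Or.inr ⟨ha, hk⟩
  have h2 : ∀ k, ((A.filter (P k)).card : ℝ) ≤ M := fun k => h k _ (fun a ha => mem_filter.1 ha)
  have h3 := card_le_card h1
  have h4 := card_union_le (A.filter (P .row) ∪ A.filter (P .column)) (A.filter (P .diagonal))
  have h5 := card_union_le (A.filter (P .row)) (A.filter (P .column))
  have h6 := h2 .row
  have h7 := h2 .column
  have h8 := h2 .diagonal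
  have h9 : (A.card : ℝ) ≤ ((A.filter (P .row)).card : ℝ) + (A.filter (P .column)).card +
      (A.filter (P .diagonal)).card := by
    exact_mod_cast h3.trans (h4.trans (Nat.add_le_add_right h5 _))
  linarith

/-- the bound for one direction -/
lemma one {N k q D m n : ℕ} {A : Finset (V N × V N)} (hA : CornerFree A) (dir : Direction)
    (T : V N → Fin m → Set (V N)) (hT : ∀ s i, Local k q D (T s i))
    (hsub : ∀ s i, T s i ⊆ line A dir s) (S : Finset (V N × V N))
    (hS : ∀ a ∈ S, a ∈ A ∧ ∃ i, place dir a ∈ T (number dir a) i) :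
    (S.card : ℝ) ≤ 2 ^ N * (vol N (k * (n + q) + D) : ℝ) +
      2 ^ N * (m * (2 ^ N * (1 - 1 / 2 ^ k) ^ (n + 1))) := by
  classical
  set P : V N × V N → Prop :=
    fun a => Cert (ZMod 2) (k * (n + q) + D) (line A dir (number dir a)) (place dir a) with hP
  have h1 := bound (D := k * (n + q) + D) hA dir (S.filter P)
    (fun a ha => ⟨(hS a (mem_filter.1 ha).1).1, (mem_filter.1 ha).2⟩)
  -- the exceptional points of one local set
  have hpiece : ∀ (s : V N) (i : Fin m),
      ((S.filter (fun a => ¬ P a ∧ number dir a = s ∧ place dir a ∈ T s i)).card : ℝ) ≤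
        2 ^ N * (1 - 1 / 2 ^ k) ^ (n + 1) := by
    intro s i
    obtain ⟨𝒜, ℬ, f, hA1, hB1, hf, hT1⟩ := hT s i
    rw [polys_eq] at hf
    have h2 := Pool.Agent.H217_CF.uncertified (n := n) 𝒜 ℬ f hf hA1 hB1 hT1 (hsub s i)
    have h3 : (S.filter (fun a => ¬ P a ∧ number dir a = s ∧ place dir a ∈ T s i)).card ≤
        Nat.card {y : V N | y ∈ T s i ∧
          ¬ Cert (ZMod 2) (k * (n + q) + D) (line A dir s) y} := by
      rw [← card_image_of_injOn (f := place dir)]
      · rw [← Nat.card_eq_finsetCard]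
        refine Nat.card_le_card_of_injective (fun y => ⟨y.1, ?_⟩) ?_
        · obtain ⟨a, ha, h4⟩ := mem_image.1 y.2
          rw [mem_filter] at ha
          obtain ⟨_, h5, h6, h7⟩ := ha
          rw [← h4]
          refine ⟨h7, ?_⟩
          rw [← h6]
          exact h5
        · intro y y' hyy
          exact Subtype.ext (congrArg (fun z => z.1) hyy)
      · intro a ha b hb hab
        rw [mem_coe, mem_filter] at ha hb
        exact place_inj dir a b (ha.2.2.1.trans hb.2.2.1.symm) hab
    have hK : (0 : ℝ) < ((2 : ℝ) ^ k) ^ (n + 1) := by positivity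
    have h4 : (S.filter (fun a => ¬ P a ∧ number dir a = s ∧ place dir a ∈ T s i)).card *
        (2 ^ k) ^ (n + 1) ≤ 2 ^ N * (2 ^ k - 1) ^ (n + 1) :=
      (Nat.mul_le_mul_right _ h3).trans h2
    have h5 : ((S.filter (fun a => ¬ P a ∧ number dir a = s ∧ place dir a ∈ T s i)).card : ℝ) *
        ((2 : ℝ) ^ k) ^ (n + 1) ≤ 2 ^ N * ((2 : ℝ) ^ k - 1) ^ (n + 1) := by
      have h6 : ((2 ^ k - 1 : ℕ) : ℝ) = (2 : ℝ) ^ k - 1 := by
        rw [Nat.cast_sub Nat.one_le_two_pow]
        push_cast
        ring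
      have h7 : (((S.filter (fun a => ¬ P a ∧ number dir a = s ∧ place dir a ∈ T s i)).card *
        (2 ^ k) ^ (n + 1) : ℕ) : ℝ) ≤ ((2 ^ N * (2 ^ k - 1) ^ (n + 1) : ℕ) : ℝ) := by
        exact_mod_cast h4
      push_cast [h6] at h7
      rw [← h6]
      exact_mod_cast h4
    rw [← mul_le_mul_iff_left₀ hK]
    refine h5.trans (le_of_eq ?_)
    rw [mul_assoc, ← mul_pow]
    congr 2
    have : (2 : ℝ) ^ k ≠ 0 := by positivity
    field_simp
  have h2 : ((S.filter (fun a => ¬ P a)).card : ℝ) ≤
      2 ^ N * (m * (2 ^ N * (1 - 1 / 2 ^ k) ^ (n + 1))) := by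
    have h3 : S.filter (fun a => ¬ P a) ⊆ (univ : Finset (V N × Fin m)).biUnion
        (fun x => S.filter (fun a => ¬ P a ∧ number dir a = x.1 ∧ place dir a ∈ T x.1 x.2)) := by
      intro a ha
      rw [mem_filter] at ha
      obtain ⟨i, hi⟩ := (hS a ha.1).2
      rw [mem_biUnion]
      exact ⟨(number dir a, i), mem_univ _, mem_filter.2 ⟨ha.1, ha.2, rfl, hi⟩⟩
    have h4 := (card_le_card h3).trans card_biUnion_le
    have h5 : ((S.filter (fun a => ¬ P a)).card : ℝ) ≤ ∑ x : V N × Fin m,
        ((S.filter (fun a => ¬ P a ∧ number dir a = x.1 ∧ place dir a ∈ T x.1 x.2)).card : ℝ) := by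
      exact_mod_cast h4
    refine h5.trans ((sum_le_sum (fun x _ => hpiece x.1 x.2)).trans (le_of_eq ?_))
    rw [sum_const, card_univ, Fintype.card_prod, Fintype.card_fun, ZMod.card, Fintype.card_fin,
      Fintype.card_fin, nsmul_eq_mul]
    push_cast
    ring
  have h3 : (S.card : ℝ) = ((S.filter P).card : ℝ) + ((S.filter (fun a => ¬ P a)).card : ℝ) := by
    exact_mod_cast (card_filter_add_card_filter_not (s := S) P).symm
  rw [h3]
  refine add_le_add ?_ h2
  exact_mod_cast h1

/-- the main bound -/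
theorem main {N k q D m : ℕ} (hk : 1 ≤ k) (A : Finset (V N × V N)) (hA : CornerFree A)
    (T : Direction → V N → Fin m → Set (V N)) (hT : ∀ dir s i, Local k q D (T dir s i))
    (hsub : ∀ dir s i, T dir s i ⊆ line A dir s)
    (hcov : ∀ a ∈ A, ∃ dir i, place dir a ∈ T dir (number dir a) i) (δ : ℝ) (hδ : 0 ≤ δ) :
    (A.card : ℝ) ≤ 3 * 4 ^ N * (Real.exp (-(2 * δ ^ 2 * N)) +
      m * Real.exp (-(((1 / 2 - δ) * N - D - k * q) / (k * 2 ^ k)))) := by
  classical
  set x : ℝ := ((1 / 2 - δ) * N - D - k * q) / (k * 2 ^ k) with hx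
  have hk0 : (0 : ℝ) < k := by exact_mod_cast hk
  have hk1 : (1 : ℝ) ≤ k := by exact_mod_cast hk
  have h2k : (2 : ℝ) ≤ 2 ^ k := by
    calc (2 : ℝ) = 2 ^ 1 := by norm_num
      _ ≤ 2 ^ k := pow_le_pow_right₀ (by norm_num) hk
  have h4N : (4 : ℝ) ^ N = 2 ^ N * 2 ^ N := by rw [← mul_pow]; norm_num
  have h4N0 : (0 : ℝ) < 4 ^ N := by positivity
  have hE0 : (0 : ℝ) < Real.exp (-(2 * δ ^ 2 * N)) := Real.exp_pos _
  have hE : (0 : ℝ) < Real.exp (-x) := Real.exp_pos _
  rcases Nat.eq_zero_or_pos m with hm | hm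
  · have h1 : A = ∅ := by
      rw [eq_empty_iff_forall_notMem]
      intro a ha
      obtain ⟨dir, i, _⟩ := hcov a ha
      subst hm
      exact i.elim0
    rw [h1, card_empty, Nat.cast_zero]
    positivity
  have hm1 : (1 : ℝ) ≤ m := by exact_mod_cast hm
  rcases le_or_gt x 0 with hx0 | hx0
  · have h1 : (A.card : ℝ) ≤ 4 ^ N := by
      have h2 : A.card ≤ 4 ^ N := by
        refine (card_le_univ A).trans (le_of_eq ?_)
        rw [Fintype.card_prod, Fintype.card_fun, ZMod.card, Fintype.card_fin, ← mul_pow]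
        norm_num
      exact_mod_cast h2
    have h2 : (1 : ℝ) ≤ Real.exp (-x) := Real.one_le_exp (by linarith)
    have h3 : (1 : ℝ) ≤ m * Real.exp (-x) := by nlinarith
    nlinarith
  · -- the number of steps
    set y : ℝ := ((1 / 2 - δ) * N - D) / k - q with hy
    have hxy : x = y / 2 ^ k := by
      rw [hx, hy]
      field_simp
    have hy0 : 0 < y := by
      rw [hxy] at hx0
      exact (div_pos_iff_of_pos_right (by positivity)).1 hx0
    set n : ℕ := ⌊y⌋₊ with hn
    have hn1 : (n : ℝ) ≤ y := Nat.floor_le hy0.le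
    have hn2 : y < n + 1 := Nat.lt_floor_add_one y
    have hdeg : ((k * (n + q) + D : ℕ) : ℝ) ≤ (1 / 2 - δ) * N := by
      push_cast
      have h1 : (n : ℝ) + q ≤ ((1 / 2 - δ) * N - D) / k := by rw [hy] at hn1; linarith
      have h2 : (k : ℝ) * (n + q) ≤ (1 / 2 - δ) * N - D := by
        rw [le_div_iff₀ hk0] at h1
        linarith
      linarith
    have hvol := Pool.Agent.R288.PC.tail N (k * (n + q) + D) δ hδ hdeg
    have hpow : (1 - 1 / (2 : ℝ) ^ k) ^ (n + 1) ≤ Real.exp (-x) := by
      have h1 : (1 - 1 / (2 : ℝ) ^ k) ≤ Real.exp (-(1 / 2 ^ k)) := by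
        have := Real.add_one_le_exp (-(1 / (2 : ℝ) ^ k))
        linarith
      have h2 : (0 : ℝ) ≤ 1 - 1 / (2 : ℝ) ^ k := by
        rw [sub_nonneg, div_le_one (by positivity)]
        linarith
      calc (1 - 1 / (2 : ℝ) ^ k) ^ (n + 1) ≤ Real.exp (-(1 / 2 ^ k)) ^ (n + 1) :=
            pow_le_pow_left₀ h2 h1 _
        _ = Real.exp (-((n + 1) / 2 ^ k)) := by
            rw [← Real.exp_nat_mul]
            congr 1
            push_cast
            ring
        _ ≤ Real.exp (-x) := by
            apply Real.exp_le_exp.2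
            rw [hxy]
            have : y / 2 ^ k ≤ (n + 1) / 2 ^ k :=
              div_le_div_of_nonneg_right hn2.le (by positivity)
            linarith
    have h1 := three (A := A) (fun dir a => ∃ i, place dir a ∈ T dir (number dir a) i) hcov
      (2 ^ N * (vol N (k * (n + q) + D) : ℝ) +
        2 ^ N * (m * (2 ^ N * (1 - 1 / 2 ^ k) ^ (n + 1))))
      (fun dir S hS => one hA dir (T dir) (hT dir) (hsub dir) S hS)
    refine h1.trans ?_
    have h2 : (2 : ℝ) ^ N * (vol N (k * (n + q) + D) : ℝ) ≤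
        4 ^ N * Real.exp (-(2 * δ ^ 2 * N)) := by
      calc (2 : ℝ) ^ N * (vol N (k * (n + q) + D) : ℝ)
          ≤ 2 ^ N * (2 ^ N * Real.exp (-(2 * δ ^ 2 * N))) := by gcongr
        _ = 4 ^ N * Real.exp (-(2 * δ ^ 2 * N)) := by rw [h4N]; ring
    have h3 : (2 : ℝ) ^ N * (m * (2 ^ N * (1 - 1 / 2 ^ k) ^ (n + 1))) ≤
        4 ^ N * (m * Real.exp (-x)) := by
      calc (2 : ℝ) ^ N * (m * (2 ^ N * (1 - 1 / 2 ^ k) ^ (n + 1)))
          ≤ 2 ^ N * (m * (2 ^ N * Real.exp (-x))) := by gcongr
        _ = 4 ^ N * (m * Real.exp (-x)) := by rw [h4N]; ring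
    nlinarith

/-- **Corner-free sets with lines decided by `OR ∘ AND ∘ OR_k ∘ parity` circuits and polynomials.**
Let `A ⊆ (F_2^N)^2` be corner-free, and let each point of `A` belong, in its row, its column or its
diagonal, to one of `m` local sets `T dir s i` with the parameters `k ≥ 1`, `q`, `D` which are
contained in this line of `A`.
(1) `|A| ≤ 3 * 4^N (exp(-2 δ² N) + m exp(-((1/2 - δ) N - D - k q) / (k 2^k)))` for all `δ ≥ 0`.
(2) If `D + k q ≤ (1/2 - 2 δ) N` with `0 ≤ δ`, then `|A| ≤ 6 m 4^N exp(-c N)` with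
`c = min (2 δ²) (δ / (k 2^k))`. -/
theorem result {N k q D m : ℕ} (hk : 1 ≤ k) (A : Finset (V N × V N)) (hA : CornerFree A)
    (T : Direction → V N → Fin m → Set (V N)) (hT : ∀ dir s i, Local k q D (T dir s i))
    (hsub : ∀ dir s i, T dir s i ⊆ line A dir s)
    (hcov : ∀ a ∈ A, ∃ dir i, place dir a ∈ T dir (number dir a) i) :
    (∀ δ : ℝ, 0 ≤ δ → (A.card : ℝ) ≤ 3 * 4 ^ N * (Real.exp (-(2 * δ ^ 2 * N)) +
      m * Real.exp (-(((1 / 2 - δ) * N - D - k * q) / (k * 2 ^ k))))) ∧
    (∀ δ : ℝ, 0 ≤ δ → (D : ℝ) + k * q ≤ (1 / 2 - 2 * δ) * N →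
      (A.card : ℝ) ≤ 6 * m * 4 ^ N * Real.exp (-(min (2 * δ ^ 2) (δ / (k * 2 ^ k)) * N))) := by
  refine ⟨fun δ hδ => main hk A hA T hT hsub hcov δ hδ, fun δ hδ hD => ?_⟩
  have hk0 : (0 : ℝ) < k := by exact_mod_cast hk
  rcases Nat.eq_zero_or_pos m with hm | hm
  · have h1 : A = ∅ := by
      rw [eq_empty_iff_forall_notMem]
      intro a ha
      obtain ⟨dir, i, _⟩ := hcov a ha
      subst hm
      exact i.elim0
    rw [h1, card_empty, Nat.cast_zero]
    positivity
  have hm1 : (1 : ℝ) ≤ m := by exact_mod_cast hm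
  refine (main hk A hA T hT hsub hcov δ hδ).trans ?_
  set c : ℝ := min (2 * δ ^ 2) (δ / (k * 2 ^ k)) with hc
  have hN : (0 : ℝ) ≤ N := Nat.cast_nonneg N
  have h1 : Real.exp (-(2 * δ ^ 2 * N)) ≤ Real.exp (-(c * N)) := by
    apply Real.exp_le_exp.2
    have : c * N ≤ 2 * δ ^ 2 * N := mul_le_mul_of_nonneg_right (min_le_left _ _) hN
    linarith
  have h2 : Real.exp (-(((1 / 2 - δ) * N - D - k * q) / (k * 2 ^ k))) ≤ Real.exp (-(c * N)) := by
    apply Real.exp_le_exp.2
    have h3 : c * N ≤ δ / (k * 2 ^ k) * N := mul_le_mul_of_nonneg_right (min_le_right _ _) hN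
    have h4 : δ / (k * 2 ^ k) * N ≤ ((1 / 2 - δ) * N - D - k * q) / (k * 2 ^ k) := by
      rw [div_mul_eq_mul_div]
      apply div_le_div_of_nonneg_right _ (by positivity)
      linarith
    linarith
  have h3 : (0 : ℝ) < 4 ^ N := by positivity
  have h4 : (0 : ℝ) < Real.exp (-(c * N)) := Real.exp_pos _
  have h5 : Real.exp (-(2 * δ ^ 2 * N)) +
      m * Real.exp (-(((1 / 2 - δ) * N - D - k * q) / (k * 2 ^ k))) ≤
      2 * m * Real.exp (-(c * N)) := by nlinarith
  calc 3 * 4 ^ N * (Real.exp (-(2 * δ ^ 2 * N)) +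
      m * Real.exp (-(((1 / 2 - δ) * N - D - k * q) / (k * 2 ^ k))))
      ≤ 3 * 4 ^ N * (2 * m * Real.exp (-(c * N))) := by gcongr
    _ = _ := by ring

end Pool.Agent.Results.MP_db4732_co.ParityLines
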