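import Mathlib

/-!
# Corner-free sets have rigid indicator matrices
-/

set_option autoImplicit false

namespace Pool.Agent.Results.MP_db4732_co.RigidIndicators

open Finset

/-! ### Independent sets -/

lemma caro {V : Type} [DecidableEq V] (R : V → V → Prop) [DecidableRel R]
    (hi : ∀ a, ¬ R a a) (hs : ∀ a b, R a b → R b a) :
    ∀ (m : ℕ) (S : Finset V), #S = m → ∃ Y ⊆ S, (∀ a ∈ Y, ∀ b ∈ Y, ¬ R a b) ∧
      ∑ v ∈ S, (1 : ℝ) / (#(S.filter (R v)) + 1) ≤ #Y := by
  intro m
  induction m using Nat.strong_induction_on with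
  | _ m ih =>
    intro S hS
    rcases S.eq_empty_or_nonempty with h | h
    · subst h
      exact ⟨∅, by simp, by simp, by simp⟩
    obtain ⟨v, hv, hmin⟩ := S.exists_min_image (fun v => #(S.filter (R v))) h
    set T := S.filter (fun w => w ≠ v ∧ ¬ R v w) with hT
    have hTS : T ⊆ S := filter_subset _ _
    have hvT : v ∉ T := by simp [hT]
    have hTlt : #T < m := by
      rw [← hS]
      exact Finset.card_lt_card ⟨hTS, fun h' => hvT (h' hv)⟩
    obtain ⟨Y, hYT, hYi, hYc⟩ := ih #T hTlt T rfl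
    have hvY : v ∉ Y := fun h' => hvT (hYT h')
    refine ⟨insert v Y, ?_, ?_, ?_⟩
    · intro w hw
      rcases Finset.mem_insert.1 hw with h' | h'
      · rw [h']; exact hv
      · exact hTS (hYT h')
    · intro a ha b hb
      rcases Finset.mem_insert.1 ha with ha' | ha' <;> rcases Finset.mem_insert.1 hb with hb' | hb'
      · rw [ha', hb']; exact hi v
      · rw [ha']; exact (mem_filter.1 (hYT hb')).2.2
      · rw [hb']; exact fun h' => (mem_filter.1 (hYT ha')).2.2 (hs _ _ h')
      · exact hYi a ha' b hb'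
    · rw [← Finset.sum_sdiff hTS, Finset.card_insert_of_notMem hvY]
      have h1 : ∑ w ∈ S \ T, (1 : ℝ) / (#(S.filter (R w)) + 1) ≤ 1 := by
        have hsd : S \ T = insert v (S.filter (R v)) := by
          ext w
          simp only [hT, mem_sdiff, mem_filter, mem_insert, not_and, not_not, ne_eq]
          constructor
          · rintro ⟨h1, h2⟩
            by_cases hw : w = v
            · exact Or.inl hw
            · exact Or.inr ⟨h1, h2 h1 hw⟩
          · rintro (h1 | ⟨h1, h2⟩)
            · exact ⟨h1 ▸ hv, fun _ h3 => absurd h1 h3⟩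
            · exact ⟨h1, fun _ _ => h2⟩
        have hvn : v ∉ S.filter (R v) := fun h' => hi v (mem_filter.1 h').2
        have hcard : #(S \ T) = #(S.filter (R v)) + 1 := by
          rw [hsd, Finset.card_insert_of_notMem hvn]
        calc ∑ w ∈ S \ T, (1 : ℝ) / (#(S.filter (R w)) + 1)
            ≤ ∑ w ∈ S \ T, (1 : ℝ) / (#(S.filter (R v)) + 1) := by
              apply Finset.sum_le_sum
              intro w hw
              have h2 : (#(S.filter (R v)) : ℝ) ≤ #(S.filter (R w)) := by
                exact_mod_cast hmin w (Finset.mem_sdiff.1 hw).1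
              apply one_div_le_one_div_of_le (by positivity)
              linarith
          _ = 1 := by
              rw [Finset.sum_const, hcard, nsmul_eq_mul]
              push_cast
              field_simp
      have h2 : ∑ w ∈ T, (1 : ℝ) / (#(S.filter (R w)) + 1) ≤
          ∑ w ∈ T, (1 : ℝ) / (#(T.filter (R w)) + 1) := by
        apply Finset.sum_le_sum
        intro w _
        have h2 : (#(T.filter (R w)) : ℝ) ≤ #(S.filter (R w)) := by
          exact_mod_cast Finset.card_le_card (Finset.filter_subset_filter _ hTS)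
        apply one_div_le_one_div_of_le (by positivity)
        linarith
      push_cast
      linarith

/-- If every subset of `S` without errors has at most `s` elements and there are at most `e` ordered
pairs that are errors, then `|S| ≤ s + √(2 s e)`. -/
lemma few {V : Type} [DecidableEq V] (Q : V → V → Prop) [DecidableRel Q] (S : Finset V) (s : ℕ)
    (hd : ∀ a ∈ S, ¬ Q a a)
    (hs : ∀ Y ⊆ S, (∀ a ∈ Y, ∀ b ∈ Y, ¬ Q a b) → #Y ≤ s) :
    (#S : ℝ) ≤ s + Real.sqrt (2 * s * #((S ×ˢ S).filter fun p => Q p.1 p.2)) := by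
  set e : ℕ := #((S ×ˢ S).filter fun p => Q p.1 p.2) with he
  obtain ⟨Y, hYS, hYi, hYc⟩ := caro (fun a b => a ≠ b ∧ (Q a b ∨ Q b a)) (by simp)
    (fun a b h => ⟨h.1.symm, h.2.symm⟩) #S S rfl
  have hY : #Y ≤ s := by
    apply hs Y hYS
    intro a ha b hb hQ
    by_cases hab : a = b
    · subst hab; exact hd a (hYS ha) hQ
    · exact hYi a ha b hb ⟨hab, Or.inl hQ⟩
  have hdeg : ∑ v ∈ S, (#(S.filter fun b => v ≠ b ∧ (Q v b ∨ Q b v)) : ℝ) ≤ 2 * e := by
    have h1 : ∀ v ∈ S, #(S.filter fun b => v ≠ b ∧ (Q v b ∨ Q b v)) ≤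
        #(S.filter fun b => Q v b) + #(S.filter fun b => Q b v) := by
      intro v _
      refine le_trans (Finset.card_le_card ?_) (Finset.card_union_le _ _)
      intro b hb
      simp only [mem_filter, mem_union] at hb ⊢
      rcases hb.2.2 with h | h
      · exact Or.inl ⟨hb.1, h⟩
      · exact Or.inr ⟨hb.1, h⟩
    have h2 : ∑ v ∈ S, #(S.filter fun b => Q v b) = e := by
      rw [he, Finset.card_filter, Finset.sum_product]
      apply Finset.sum_congr rfl
      intro v _
      rw [Finset.card_filter]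
    have h3 : ∑ v ∈ S, #(S.filter fun b => Q b v) = e := by
      rw [he, Finset.card_filter, Finset.sum_product, Finset.sum_comm]
      apply Finset.sum_congr rfl
      intro v _
      rw [Finset.card_filter]
    have h4 : ∑ v ∈ S, #(S.filter fun b => v ≠ b ∧ (Q v b ∨ Q b v)) ≤ 2 * e := by
      refine (Finset.sum_le_sum h1).trans ?_
      rw [Finset.sum_add_distrib, h2, h3]
      omega
    exact_mod_cast h4
  have hcs : (∑ _v ∈ S, (1 : ℝ)) ^ 2 ≤
      (∑ v ∈ S, (1 : ℝ) / (#(S.filter fun b => v ≠ b ∧ (Q v b ∨ Q b v)) + 1)) *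
      ∑ v ∈ S, ((#(S.filter fun b => v ≠ b ∧ (Q v b ∨ Q b v)) : ℝ) + 1) := by
    apply Finset.sum_sq_le_sum_mul_sum_of_sq_le_mul
    · intro i _; positivity
    · intro i _; positivity
    · intro i _
      have h0 : (#(S.filter fun b => i ≠ b ∧ (Q i b ∨ Q b i)) : ℝ) + 1 ≠ 0 := by positivity
      rw [one_div_mul_cancel h0]
      norm_num
  have hsum : ∑ v ∈ S, ((#(S.filter fun b => v ≠ b ∧ (Q v b ∨ Q b v)) : ℝ) + 1) ≤
      2 * e + #S := by
    rw [Finset.sum_add_distrib, Finset.sum_const, nsmul_eq_mul, mul_one]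
    linarith
  have hone : ∑ _v ∈ S, (1 : ℝ) = #S := by
    rw [Finset.sum_const, nsmul_eq_mul, mul_one]
  rw [hone] at hcs
  have hYr : (#Y : ℝ) ≤ s := by exact_mod_cast hY
  have hm : (#S : ℝ) ^ 2 ≤ s * (2 * e + #S) :=
    hcs.trans (mul_le_mul (hYc.trans hYr) hsum
      (Finset.sum_nonneg fun _ _ => by positivity) (by positivity))
  by_contra hlt
  push Not at hlt
  obtain ⟨q, hq⟩ : ∃ q, q = Real.sqrt (2 * s * e) := ⟨_, rfl⟩
  rw [← hq] at hlt
  have hq0 : 0 ≤ q := by rw [hq]; exact Real.sqrt_nonneg _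
  have hq2 : q * q = 2 * s * e := by rw [hq]; exact Real.mul_self_sqrt (by positivity)
  have hs0 : (0 : ℝ) ≤ s := by positivity
  have hS0 : (0 : ℝ) < #S := by linarith
  have h5 := mul_lt_mul_of_pos_right hlt hS0
  have h6 : q * q ≤ q * #S := mul_le_mul_of_nonneg_left (by linarith) hq0
  have h7 : (s + q) * (#S : ℝ) = s * #S + q * #S := by ring
  have h8 : (s : ℝ) * (2 * e + #S) = 2 * s * e + s * #S := by ring
  have h9 : (#S : ℝ) ^ 2 = #S * #S := by ring
  linarith

/-! ### The general inequality -/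

section general

variable {G : Type} [AddCommGroup G] [Fintype G] [DecidableEq G]

/-- The number of points of `A` in the column `{x} × G`. -/
def row (A : Finset (G × G)) (x : G) : ℕ := #(univ.filter fun y => (x, y) ∈ A)

/-- The number of points of `A` in the line `G × {y}`. -/
def col (A : Finset (G × G)) (y : G) : ℕ := #(univ.filter fun x => (x, y) ∈ A)

lemma fiber (A : Finset (G × G)) (P : G → G → Prop) [DecidableRel P] :
    ∑ z : G, #(univ.filter fun x => (x, z - x) ∈ A ∧ P x (z - x)) =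
      #(A.filter fun p => P p.1 p.2) := by
  rw [Finset.card_eq_sum_card_fiberwise (f := fun p : G × G => p.1 + p.2) (t := univ)
    (fun _ _ => by simp)]
  apply Finset.sum_congr rfl
  intro z _
  apply Finset.card_bij (fun x _ => (x, z - x))
  · intro x hx
    simp only [mem_filter, mem_univ, true_and] at hx ⊢
    exact ⟨hx, by abel⟩
  · intro x _ y _ h
    exact (Prod.ext_iff.1 h).1
  · rintro ⟨x, y⟩ h
    simp only [mem_filter] at h
    refine ⟨x, ?_, ?_⟩
    · simp only [mem_filter, mem_univ, true_and]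
      rw [← h.2, add_sub_cancel_left]
      exact h.1
    · rw [← h.2, add_sub_cancel_left]

lemma general (A E : Finset (G × G)) (s : ℕ)
    (hs : ∀ (z : G) (Y : Finset G), (∀ x ∈ Y, (x, z - x) ∈ A) →
      (∀ x ∈ Y, ∀ y ∈ Y, (x, z - y) ∉ E) → #Y ≤ s) :
    (#A : ℝ) ≤ #E + Fintype.card G * s +
      Real.sqrt (2 * s * Fintype.card G * ∑ p ∈ E, min (row A p.1) (col A p.2)) := by
  classical
  let X : G → Finset G := fun z => univ.filter fun x => (x, z - x) ∈ A ∧ (x, z - x) ∉ E
  let e : G → ℕ := fun z => #((X z ×ˢ X z).filter fun p => (p.1, z - p.2) ∈ E)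
  have h1 : ∀ z, (#(X z) : ℝ) ≤ s + Real.sqrt (2 * s * e z) := by
    intro z
    apply few (fun a b => (a, z - b) ∈ E) (X z) s
    · intro a ha
      exact (mem_filter.1 ha).2.2
    · intro Y hY hYE
      exact hs z Y (fun x hx => (mem_filter.1 (hY hx)).2.1) hYE
  have hA1 : #A = ∑ z, #(X z) + #(A.filter fun p => p ∈ E) := by
    have h2 := fiber A (fun x y => (x, y) ∉ E)
    have h3 : ∑ z, #(X z) = #(A.filter fun p => p ∉ E) := h2
    rw [h3, add_comm]
    exact (Finset.card_filter_add_card_filter_not (fun p => p ∈ E)).symm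
  have hA2 : #(A.filter fun p => p ∈ E) ≤ #E :=
    Finset.card_le_card fun p hp => (mem_filter.1 hp).2
  have he : ∑ z, e z ≤ ∑ p ∈ E, min (row A p.1) (col A p.2) := by
    have h2 : ∀ z, e z ≤ #(E.filter fun p => (p.1, z - p.1) ∈ A ∧ (z - p.2, p.2) ∈ A) := by
      intro z
      apply Finset.card_le_card_of_injOn (fun p => (p.1, z - p.2))
      · intro p hp
        have hp' := Finset.mem_coe.1 hp
        simp only [X, mem_filter, mem_product, mem_univ, true_and] at hp'
        simp only [coe_filter, Set.mem_ofPred_eq]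
        refine ⟨hp'.2, hp'.1.1.1, ?_⟩
        rw [sub_sub_cancel]
        exact hp'.1.2.1
      · intro p _ q _ h
        have h' := Prod.ext_iff.1 h
        exact Prod.ext h'.1 (sub_right_injective h'.2)
    calc ∑ z, e z ≤ ∑ z, #(E.filter fun p => (p.1, z - p.1) ∈ A ∧ (z - p.2, p.2) ∈ A) :=
          Finset.sum_le_sum fun z _ => h2 z
      _ = ∑ p ∈ E, #(univ.filter fun z => (p.1, z - p.1) ∈ A ∧ (z - p.2, p.2) ∈ A) := by
          simp only [Finset.card_filter]
          rw [Finset.sum_comm]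
      _ ≤ ∑ p ∈ E, min (row A p.1) (col A p.2) := by
          apply Finset.sum_le_sum
          intro p _
          apply le_min
          · apply Finset.card_le_card_of_injOn (fun z => z - p.1)
            · intro z hz
              have hz' := Finset.mem_coe.1 hz
              simp only [mem_filter, mem_univ, true_and] at hz'
              simp only [coe_filter, mem_univ, true_and, Set.mem_ofPred_eq]
              exact hz'.1
            · intro z _ w _ h
              exact sub_left_injective h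
          · apply Finset.card_le_card_of_injOn (fun z => z - p.2)
            · intro z hz
              have hz' := Finset.mem_coe.1 hz
              simp only [mem_filter, mem_univ, true_and] at hz'
              simp only [coe_filter, mem_univ, true_and, Set.mem_ofPred_eq]
              exact hz'.2
            · intro z _ w _ h
              exact sub_left_injective h
  have hsq : ∑ z, Real.sqrt (2 * s * e z) ≤
      Real.sqrt (2 * s * Fintype.card G * ∑ p ∈ E, min (row A p.1) (col A p.2)) := by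
    apply Real.le_sqrt_of_sq_le
    have h3 := @sq_sum_le_card_mul_sum_sq G ℝ _ _ _ _ (univ : Finset G)
      (fun z => Real.sqrt (2 * s * e z))
    refine h3.trans ?_
    have h4 : ∀ z, Real.sqrt (2 * s * e z) ^ 2 = 2 * s * e z := fun z =>
      Real.sq_sqrt (by positivity)
    simp only [h4]
    rw [← Finset.mul_sum, Finset.card_univ]
    have h5 : (∑ z, (e z : ℝ)) ≤ ((∑ p ∈ E, min (row A p.1) (col A p.2) : ℕ) : ℝ) := by
      exact_mod_cast he
    have h6 : (0 : ℝ) ≤ Fintype.card G * (2 * s) := by positivity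
    calc (Fintype.card G : ℝ) * (2 * s * ∑ z, (e z : ℝ))
        = Fintype.card G * (2 * s) * ∑ z, (e z : ℝ) := by ring
      _ ≤ Fintype.card G * (2 * s) * ((∑ p ∈ E, min (row A p.1) (col A p.2) : ℕ) : ℝ) :=
          mul_le_mul_of_nonneg_left h5 h6
      _ = 2 * s * Fintype.card G * ∑ p ∈ E, min (row A p.1) (col A p.2) := by
          push_cast
          ring
  have hfin : (∑ z, (#(X z) : ℝ)) ≤ Fintype.card G * s +
      Real.sqrt (2 * s * Fintype.card G * ∑ p ∈ E, min (row A p.1) (col A p.2)) := by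
    calc (∑ z, (#(X z) : ℝ)) ≤ ∑ z : G, ((s : ℝ) + Real.sqrt (2 * s * e z)) :=
          Finset.sum_le_sum fun z _ => h1 z
      _ = Fintype.card G * s + ∑ z : G, Real.sqrt (2 * s * e z) := by
          rw [Finset.sum_add_distrib, Finset.sum_const, Finset.card_univ, nsmul_eq_mul]
      _ ≤ _ := by linarith
  have hA3 : (#A : ℝ) = ∑ z, (#(X z) : ℝ) + #(A.filter fun p => p ∈ E) := by
    exact_mod_cast hA1
  have hA4 : (#(A.filter fun p => p ∈ E) : ℝ) ≤ #E := by exact_mod_cast hA2
  rw [hA3]
  linarith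

end general

/-! ### Blocks of corner-free sets -/

lemma approx {ι : Type} [Fintype ι] [DecidableEq ι] (N : Matrix ι ι ℝ) (r : ℕ) (hr : N.rank ≤ r)
    (hι : Fintype.card ι = 2 * r + 1) (ε : ℝ) (hε : 2 * ε ^ 2 * (2 * r + 1) ≤ 1)
    (h : ∀ i j, |N i j - (1 : Matrix ι ι ℝ) i j| ≤ ε) : False := by
  let L : EuclideanSpace ℝ ι →ₗ[ℝ] (ι → ℝ) :=
    N.mulVecLin ∘ₗ (WithLp.linearEquiv 2 ℝ (ι → ℝ)).toLinearMap
  have hL : ∀ (w : EuclideanSpace ℝ ι) (i : ι), L w i = ∑ j, N i j * w j := by
    intro w i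
    simp [L, Matrix.mulVec, dotProduct]
  let W : Submodule ℝ (EuclideanSpace ℝ ι) := LinearMap.ker L
  have hrange : Module.finrank ℝ (LinearMap.range L) = N.rank := by
    have h0 : LinearMap.range L = LinearMap.range N.mulVecLin :=
      LinearMap.range_comp_of_range_eq_top _ (LinearEquiv.range _)
    rw [h0, Matrix.rank]
  have hdim : r + 1 ≤ Module.finrank ℝ W := by
    have h1 := LinearMap.finrank_range_add_finrank_ker L
    rw [hrange, finrank_euclideanSpace, hι] at h1
    have : Module.finrank ℝ W = Module.finrank ℝ (LinearMap.ker L) := rfl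
    omega
  let b := stdOrthonormalBasis ℝ W
  let w : Fin (Module.finrank ℝ W) → EuclideanSpace ℝ ι := fun j => (b j : EuclideanSpace ℝ ι)
  have hw : Orthonormal ℝ w := by
    have := b.orthonormal
    exact this.comp_linearIsometry W.subtypeₗᵢ
  let d : ι → EuclideanSpace ℝ ι := fun i => WithLp.toLp 2 (fun j => N i j - (1 : Matrix ι ι ℝ) i j)
  have hin : ∀ i j, inner ℝ (w j) (d i) = - w j i := by
    intro i j
    have h0 : L (w j) = 0 := (b j).2
    have h1 : ∑ l, N i l * w j l = 0 := by rw [← hL, h0]; rfl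
    rw [PiLp.inner_apply]
    have h2 : ∀ l, inner ℝ (w j l) (d i l) =
        N i l * w j l - (if i = l then w j l else 0) := by
      intro l
      have h3 : d i l = N i l - (1 : Matrix ι ι ℝ) i l := rfl
      rw [h3, RCLike.inner_apply, conj_trivial, sub_mul, Matrix.one_apply]
      split_ifs <;> ring
    rw [Finset.sum_congr rfl fun l _ => h2 l, Finset.sum_sub_distrib, h1]
    simp
  have hbes : ∀ i, ∑ j, (w j i) ^ 2 ≤ (2 * r + 1) * ε ^ 2 := by
    intro i
    have h1 := hw.sum_inner_products_le (x := d i) (s := univ)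
    simp only [hin, norm_neg, Real.norm_eq_abs, sq_abs] at h1
    refine h1.trans ?_
    rw [EuclideanSpace.norm_sq_eq]
    calc ∑ l, ‖d i l‖ ^ 2 ≤ ∑ _l : ι, ε ^ 2 := by
          apply Finset.sum_le_sum
          intro l _
          have h2 := h i l
          have : ‖d i l‖ ≤ ε := h2
          exact pow_le_pow_left₀ (norm_nonneg _) this 2
      _ = (2 * r + 1) * ε ^ 2 := by
          rw [Finset.sum_const, Finset.card_univ, hι, nsmul_eq_mul]
          push_cast
          ring
  have hsum : ∑ i, ∑ j, (w j i) ^ 2 = (Module.finrank ℝ W : ℝ) := by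
    rw [Finset.sum_comm]
    have : ∀ j, ∑ i, (w j i) ^ 2 = 1 := by
      intro j
      have h1 := hw.1 j
      have h2 := EuclideanSpace.norm_sq_eq (w j)
      rw [h1] at h2
      simp only [Real.norm_eq_abs, sq_abs] at h2
      rw [← h2]; norm_num
    simp [this]
  have hfin : (Module.finrank ℝ W : ℝ) ≤ (2 * r + 1) * ((2 * r + 1) * ε ^ 2) := by
    rw [← hsum]
    calc ∑ i, ∑ j, (w j i) ^ 2 ≤ ∑ _i : ι, (2 * r + 1) * ε ^ 2 := Finset.sum_le_sum fun i _ => hbes i
      _ = _ := by
          rw [Finset.sum_const, Finset.card_univ, hι, nsmul_eq_mul]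
          push_cast
          ring
  have hd' : ((r : ℝ) + 1) ≤ (Module.finrank ℝ W : ℝ) := by exact_mod_cast hdim
  have hr0 : (0 : ℝ) ≤ r := Nat.cast_nonneg r
  nlinarith

section blocks

variable {G : Type} [AddCommGroup G] [Fintype G] [DecidableEq G]

/-- `A ⊆ G²` contains no nontrivial corner `(x, y), (x, y + z), (x + z, y)`, `z ≠ 0`. -/
def CornerFree (A : Finset (G × G)) : Prop :=
  ∀ x y z : G, z ≠ 0 → ¬ ((x, y) ∈ A ∧ (x, y + z) ∈ A ∧ (x + z, y) ∈ A)

/-- Off the set `E` of entries, the indicator of `A ⊆ G²` is like a matrix of rank `s`. Either `A` is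
off `E` the support of a matrix of rank at most `s` over some field, or the indicator of `A` is off
`E` within `ε` of a real matrix of rank `ρ`, where `2 ρ ≤ s` and `2 ε ^ 2 (2 ρ + 1) ≤ 1`. -/
def LowOff (A E : Finset (G × G)) (s : ℕ) : Prop :=
  (∃ (K : Type) (_ : Field K) (M : Matrix G G K), M.rank ≤ s ∧
    ∀ x y, (x, y) ∉ E → (M x y ≠ 0 ↔ (x, y) ∈ A)) ∨
  (∃ (M : Matrix G G ℝ) (ε : ℝ), 2 * M.rank ≤ s ∧ 2 * ε ^ 2 * (2 * M.rank + 1) ≤ 1 ∧
    ∀ x y, (x, y) ∉ E → |M x y - if (x, y) ∈ A then 1 else 0| ≤ ε)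

omit [Fintype G] [DecidableEq G] in
lemma off_diagonal {A : Finset (G × G)} (hA : CornerFree A) {z x y : G} (hx : (x, z - x) ∈ A)
    (hy : (y, z - y) ∈ A) (hxy : x ≠ y) : (x, z - y) ∉ A := by
  intro h
  apply hA x (z - y) (y - x) (sub_ne_zero.2 (Ne.symm hxy))
  refine ⟨h, ?_, ?_⟩
  · rw [show z - y + (y - x) = z - x by abel]; exact hx
  · rw [add_sub_cancel]; exact hy

lemma block {A E : Finset (G × G)} (hA : CornerFree A) {s : ℕ} (h : LowOff A E s) (z : G)
    (Y : Finset G) (hY : ∀ x ∈ Y, (x, z - x) ∈ A)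
    (hE : ∀ x ∈ Y, ∀ y ∈ Y, (x, z - y) ∉ E) : #Y ≤ s := by
  classical
  rcases h with ⟨K, hK, M, hM, hMA⟩ | ⟨M, ε, hM, hε, hMA⟩
  · let N : Matrix Y Y K := M.submatrix (fun x => x.1) (fun y => z - y.1)
    have hN : N = Matrix.diagonal (fun x : Y => M x.1 (z - x.1)) := by
      ext x y
      by_cases hxy : x = y
      · subst hxy; simp [N]
      · rw [Matrix.diagonal_apply_ne _ hxy]
        by_contra h0
        exact off_diagonal hA (hY x.1 x.2) (hY y.1 y.2) (fun h' => hxy (Subtype.ext h'))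
          ((hMA _ _ (hE x.1 x.2 y.1 y.2)).1 h0)
    have hr : N.rank ≤ M.rank := Matrix.rank_submatrix_le M _ _
    rw [hN, Matrix.rank_diagonal] at hr
    have hc : Fintype.card {i : Y // M i.1 (z - i.1) ≠ 0} = #Y := by
      rw [← Fintype.card_coe Y]
      apply Fintype.card_congr
      exact Equiv.subtypeUnivEquiv fun x => (hMA _ _ (hE x.1 x.2 x.1 x.2)).2 (hY x.1 x.2)
    omega
  · by_contra hlt
    push Not at hlt
    obtain ⟨Z, hZY, hZ⟩ := Finset.exists_subset_card_eq (show 2 * M.rank + 1 ≤ #Y by omega)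
    refine approx (M.submatrix (fun x : Z => x.1) (fun y : Z => z - y.1)) M.rank
      (Matrix.rank_submatrix_le M _ _) (by rw [Fintype.card_coe, hZ]) ε hε ?_
    intro x y
    have h1 := hMA _ _ (hE x.1 (hZY x.2) y.1 (hZY y.2))
    have h2 : (1 : Matrix Z Z ℝ) x y = if (x.1, z - y.1) ∈ A then 1 else 0 := by
      rw [Matrix.one_apply]
      by_cases hxy : x = y
      · subst hxy; rw [if_pos rfl, if_pos (hY x.1 (hZY x.2))]
      · rw [if_neg hxy, if_neg]
        exact off_diagonal hA (hY x.1 (hZY x.2)) (hY y.1 (hZY y.2))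
          (fun h' => hxy (Subtype.ext h'))
    rw [h2]
    exact h1

omit [AddCommGroup G] in
lemma sum_row (A : Finset (G × G)) : ∑ x, row A x = #A := by
  unfold row
  rw [Finset.card_eq_sum_card_fiberwise (f := fun p : G × G => p.1) (t := univ)
    (fun _ _ => by simp)]
  apply Finset.sum_congr rfl
  intro x _
  apply Finset.card_bij (fun y _ => (x, y))
  · intro y hy
    simp only [mem_filter, mem_univ, true_and] at hy ⊢
    exact ⟨hy, trivial⟩
  · intro y _ y' _ h
    exact (Prod.ext_iff.1 h).2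
  · rintro ⟨x', y⟩ h
    simp only [mem_filter] at h
    obtain ⟨h1, h2⟩ := h
    subst h2
    exact ⟨y, by simpa using h1, rfl⟩

omit [AddCommGroup G] in
lemma row_le (A : Finset (G × G)) (x : G) : row A x ≤ Fintype.card G := by
  unfold row
  exact (Finset.card_filter_le _ _).trans (by rw [Finset.card_univ])

/-- At most `t` errors in every row. -/
lemma rows {A E : Finset (G × G)} {t : ℕ} (ht : ∀ x, row E x ≤ t) :
    ∑ p ∈ E, min (row A p.1) (col A p.2) ≤ t * #A := by
  calc ∑ p ∈ E, min (row A p.1) (col A p.2) ≤ ∑ p ∈ E, row A p.1 :=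
        Finset.sum_le_sum fun p _ => min_le_left _ _
    _ = ∑ x, ∑ p ∈ E with p.1 = x, row A p.1 := by
        rw [Finset.sum_fiberwise]
    _ ≤ ∑ x, t * row A x := by
        apply Finset.sum_le_sum
        intro x _
        have h1 : ∑ p ∈ E with p.1 = x, row A p.1 = #(E.filter fun p => p.1 = x) * row A x := by
          rw [Finset.sum_congr rfl (g := fun _ => row A x)
            (fun p hp => by rw [(mem_filter.1 hp).2]), Finset.sum_const, smul_eq_mul]
        rw [h1]
        apply Nat.mul_le_mul_right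
        refine le_trans ?_ (ht x)
        apply Finset.card_le_card_of_injOn (fun p => p.2)
        · intro p hp
          have hp' := Finset.mem_coe.1 hp
          simp only [mem_filter] at hp'
          simp only [coe_filter, mem_univ, true_and, Set.mem_ofPred_eq]
          rw [← hp'.2]
          exact hp'.1
        · intro p hp q hq h
          have hp' := (mem_filter.1 (Finset.mem_coe.1 hp)).2
          have hq' := (mem_filter.1 (Finset.mem_coe.1 hq)).2
          exact Prod.ext (hp'.trans hq'.symm) h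
    _ = t * #A := by rw [← Finset.mul_sum, sum_row]

theorem main {A E : Finset (G × G)} (hA : CornerFree A) {s : ℕ} (h : LowOff A E s) :
    (#A : ℝ) ≤ #E + Fintype.card G * s +
      Real.sqrt (2 * s * Fintype.card G * ∑ p ∈ E, min (row A p.1) (col A p.2)) :=
  general A E s fun z Y hY hE => block hA h z Y hY hE

theorem rows_bound {A E : Finset (G × G)} (hA : CornerFree A) {s t : ℕ} (h : LowOff A E s)
    (ht : ∀ x, row E x ≤ t) : #A ≤ 2 * Fintype.card G * (s + t + s * t) := by
  have h1 := main hA h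
  have h2 : #E ≤ Fintype.card G * t := by
    rw [← sum_row E]
    refine (Finset.sum_le_sum fun x _ => ht x).trans ?_
    rw [Finset.sum_const, Finset.card_univ, smul_eq_mul]
  have h3 : ((∑ p ∈ E, min (row A p.1) (col A p.2) : ℕ) : ℝ) ≤ t * #A := by
    exact_mod_cast rows ht
  have h2' : (#E : ℝ) ≤ Fintype.card G * t := by exact_mod_cast h2
  set N : ℝ := (Fintype.card G : ℝ) with hN
  have hN0 : 0 ≤ N := by positivity
  have hb : Real.sqrt (2 * s * N * ∑ p ∈ E, min (row A p.1) (col A p.2)) ≤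
      (2 * s * N * t + #A) / 2 := by
    rw [show (2 * s * N * t + #A) / 2 = |(2 * s * N * t + #A) / 2| by
      rw [abs_of_nonneg]; positivity]
    apply Real.sqrt_le_iff.2
    refine ⟨abs_nonneg _, ?_⟩
    rw [sq_abs]
    have h4 : 2 * s * N * ((∑ p ∈ E, min (row A p.1) (col A p.2) : ℕ) : ℝ) ≤
        2 * s * N * (t * #A) := mul_le_mul_of_nonneg_left h3 (by positivity)
    nlinarith [sq_nonneg (2 * s * N * t - #A)]
  have h5 : (#A : ℝ) ≤ 2 * N * (s + t + s * t) := by nlinarith
  rw [hN] at h5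
  exact_mod_cast h5

theorem rigid {A E : Finset (G × G)} (hA : CornerFree A) {s : ℕ} (h : LowOff A E s)
    (hs : 1 ≤ s) (hsA : 4 * s * Fintype.card G ≤ #A) :
    #A ^ 2 ≤ 8 * s * Fintype.card G ^ 2 * #E := by
  have h1 := main hA h
  set N : ℝ := (Fintype.card G : ℝ) with hN
  have hN0 : 0 ≤ N := by positivity
  have h3 : ((∑ p ∈ E, min (row A p.1) (col A p.2) : ℕ) : ℝ) ≤ #E * N := by
    have : ∑ p ∈ E, min (row A p.1) (col A p.2) ≤ #E * Fintype.card G := by
      rw [← smul_eq_mul, ← Finset.sum_const]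
      exact Finset.sum_le_sum fun p _ => (min_le_left _ _).trans (row_le A p.1)
    rw [hN]
    exact_mod_cast this
  have hAN : (#A : ℝ) ≤ N ^ 2 := by
    have : #A ≤ Fintype.card G * Fintype.card G := by
      rw [← Fintype.card_prod, ← Finset.card_univ]
      exact Finset.card_le_univ A
    rw [hN, sq]
    exact_mod_cast this
  have hsA' : 4 * s * N ≤ #A := by rw [hN]; exact_mod_cast hsA
  have hs' : (1 : ℝ) ≤ s := by exact_mod_cast hs
  have hA0 : (0 : ℝ) ≤ #A := by positivity
  have hE0 : (0 : ℝ) ≤ #E := by positivity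
  have hfin : (#A : ℝ) ^ 2 ≤ 8 * s * N ^ 2 * #E := by
    by_cases hcase : (#A : ℝ) ≤ 4 * #E
    · calc (#A : ℝ) ^ 2 = #A * #A := by ring
        _ ≤ N ^ 2 * (4 * #E) := mul_le_mul hAN hcase hA0 (by positivity)
        _ = 4 * 1 * (N ^ 2 * #E) := by ring
        _ ≤ 8 * s * (N ^ 2 * #E) := by
            apply mul_le_mul_of_nonneg_right _ (by positivity)
            linarith
        _ = 8 * s * N ^ 2 * #E := by ring
    · push Not at hcase
      have h5 : (#A : ℝ) / 2 ≤
          Real.sqrt (2 * s * N * ∑ p ∈ E, min (row A p.1) (col A p.2)) := by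
        have : N * s = s * N := mul_comm _ _
        nlinarith
      have h6 : ((#A : ℝ) / 2) ^ 2 ≤ 2 * s * N * ∑ p ∈ E, min (row A p.1) (col A p.2) := by
        have h7 := pow_le_pow_left₀ (by positivity) h5 2
        rwa [Real.sq_sqrt (by positivity)] at h7
      have h4 : 2 * s * N * ((∑ p ∈ E, min (row A p.1) (col A p.2) : ℕ) : ℝ) ≤
          2 * s * N * (#E * N) := mul_le_mul_of_nonneg_left h3 (by positivity)
      nlinarith
  rw [hN] at hfin
  exact_mod_cast hfin

end blocks

/-- **Power saving when the product of rank and number of errors is small.** -/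
theorem power {n s : ℕ} {A E : Finset ((Fin n → ZMod 2) × (Fin n → ZMod 2))}
    (hA : CornerFree A) (h : LowOff A E s) (hs : 1 ≤ s) (c : ℝ)
    (h1 : (s : ℝ) ≤ (2 : ℝ) ^ ((1 - 2 * c) * n))
    (h2 : (s * #E : ℝ) ≤ (2 : ℝ) ^ ((2 - 4 * c) * n)) :
    (#A : ℝ) ≤ 4 * (4 : ℝ) ^ ((1 - c) * n) := by
  have hcard : Fintype.card (Fin n → ZMod 2) = 2 ^ n := by
    rw [Fintype.card_fun, ZMod.card, Fintype.card_fin]
  have h4 : (4 : ℝ) ^ ((1 - c) * n) = (2 : ℝ) ^ ((1 - 2 * c) * n) * 2 ^ n := by
    rw [show (4 : ℝ) = 2 ^ (2 : ℝ) by norm_num, ← Real.rpow_mul (by norm_num),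
      ← Real.rpow_natCast 2 n, ← Real.rpow_add (by norm_num)]
    congr 1
    ring
  have hp : (0 : ℝ) < (2 : ℝ) ^ ((1 - 2 * c) * n) := Real.rpow_pos_of_pos (by norm_num) _
  by_cases hcase : 4 * s * Fintype.card (Fin n → ZMod 2) ≤ #A
  · have h5 := rigid hA h hs hcase
    rw [hcard] at h5
    have h6 : (#A : ℝ) ^ 2 ≤ 8 * s * ((2 : ℝ) ^ n) ^ 2 * #E := by exact_mod_cast h5
    have h7 : (2 : ℝ) ^ ((2 - 4 * c) * n) = ((2 : ℝ) ^ ((1 - 2 * c) * n)) ^ 2 := by
      rw [← Real.rpow_natCast, ← Real.rpow_mul (by norm_num)]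
      congr 1
      push_cast
      ring
    rw [h7] at h2
    have h8 : (#A : ℝ) ^ 2 ≤ (4 * (4 : ℝ) ^ ((1 - c) * n)) ^ 2 := by
      rw [h4]
      calc (#A : ℝ) ^ 2 ≤ 8 * ((2 : ℝ) ^ n) ^ 2 * (s * #E) := by linarith
        _ ≤ 8 * ((2 : ℝ) ^ n) ^ 2 * ((2 : ℝ) ^ ((1 - 2 * c) * n)) ^ 2 :=
            mul_le_mul_of_nonneg_left h2 (by positivity)
        _ ≤ 16 * ((2 : ℝ) ^ n) ^ 2 * ((2 : ℝ) ^ ((1 - 2 * c) * n)) ^ 2 := by
            apply mul_le_mul_of_nonneg_right _ (by positivity)
            apply mul_le_mul_of_nonneg_right (by norm_num) (by positivity)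
        _ = _ := by ring
    exact (abs_le_of_sq_le_sq' h8 (by positivity)).2
  · push Not at hcase
    rw [hcard] at hcase
    have h6 : (#A : ℝ) ≤ 4 * s * (2 : ℝ) ^ n := by exact_mod_cast hcase.le
    rw [h4]
    calc (#A : ℝ) ≤ 4 * s * (2 : ℝ) ^ n := h6
      _ ≤ 4 * (2 : ℝ) ^ ((1 - 2 * c) * n) * (2 : ℝ) ^ n := by
          apply mul_le_mul_of_nonneg_right _ (by positivity)
          linarith
      _ = _ := by ring

/-- **Corner-free sets have rigid indicators.** -/
theorem result :
    -- 1. the general inequality, in every finite abelian group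
    (∀ (G : Type) [AddCommGroup G] [Fintype G] [DecidableEq G] (A E : Finset (G × G)) (s : ℕ),
      CornerFree A → LowOff A E s →
      (#A : ℝ) ≤ #E + Fintype.card G * s +
        Real.sqrt (2 * s * Fintype.card G * ∑ p ∈ E, min (row A p.1) (col A p.2))) ∧
    -- 2. at most `t` errors in every row
    (∀ (G : Type) [AddCommGroup G] [Fintype G] [DecidableEq G] (A E : Finset (G × G)) (s t : ℕ),
      CornerFree A → LowOff A E s → (∀ x, row E x ≤ t) →
      #A ≤ 2 * Fintype.card G * (s + t + s * t)) ∧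
    -- 3. the number of errors is large
    (∀ (G : Type) [AddCommGroup G] [Fintype G] [DecidableEq G] (A E : Finset (G × G)) (s : ℕ),
      CornerFree A → LowOff A E s → 1 ≤ s → 4 * s * Fintype.card G ≤ #A →
      #A ^ 2 ≤ 8 * s * Fintype.card G ^ 2 * #E) ∧
    -- 4. power saving in `(F_2^n)^2`
    (∀ (n s : ℕ) (A E : Finset ((Fin n → ZMod 2) × (Fin n → ZMod 2))) (c : ℝ),
      CornerFree A → LowOff A E s → 1 ≤ s → (s : ℝ) ≤ (2 : ℝ) ^ ((1 - 2 * c) * n) →
      (s * #E : ℝ) ≤ (2 : ℝ) ^ ((2 - 4 * c) * n) →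
      (#A : ℝ) ≤ 4 * (4 : ℝ) ^ ((1 - c) * n)) :=
  ⟨fun _ _ _ _ _ _ _ hA h => main hA h, fun _ _ _ _ _ _ _ _ hA h ht => rows_bound hA h ht,
    fun _ _ _ _ _ _ _ hA h hs hsA => rigid hA h hs hsA,
    fun _ _ _ _ c hA h hs h1 h2 => power hA h hs c h1 h2⟩

end Pool.Agent.Results.MP_db4732_co.RigidIndicators
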